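import Pool.Agent.Helper65.KH.Goals

/-!
# Project KH (MP_20ee5e_ag), packet NU: numbers
-/

set_option autoImplicit false

namespace Pool.Agent.Helper37.KH.NU

open Pool.Agent.Helper65.KH

theorem real_bound (N m : ℕ) (hN : 5 ≤ N) (hm : m ≤ N) :
    (2 : ℝ) ^ m * (((N : ℝ) - m) ^ (N + 1) + m * ((N : ℝ) - m + 1) ^ N) ≤ (N : ℝ) ^ (N + 1) := by
  have hN0 : (0 : ℝ) < N := by
    have : 0 < N := by omega
    exact_mod_cast this
  have hN5 : (5 : ℝ) ≤ N := by exact_mod_cast hN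
  have hmN : (m : ℝ) ≤ N := by exact_mod_cast hm
  have hm0 : (0 : ℝ) ≤ m := Nat.cast_nonneg m
  have ha : (0 : ℝ) ≤ (N : ℝ) - m := by linarith
  -- the exponential bound
  have key : ∀ t : ℝ, 0 ≤ (N : ℝ) - t → ((N : ℝ) - t) ^ N ≤ (N : ℝ) ^ N * Real.exp (-t) := by
    intro t ht
    have h1 : (N : ℝ) - t ≤ N * Real.exp (-(t / N)) := by
      have h2 := Real.one_sub_le_exp_neg (t / N)
      have h3 : (N : ℝ) * (1 - t / N) ≤ N * Real.exp (-(t / N)) :=
        mul_le_mul_of_nonneg_left h2 hN0.le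
      have h4 : (N : ℝ) * (1 - t / N) = N - t := by field_simp
      linarith
    calc ((N : ℝ) - t) ^ N ≤ (N * Real.exp (-(t / N))) ^ N := pow_le_pow_left₀ ht h1 N
      _ = (N : ℝ) ^ N * Real.exp (-t) := by
        rw [mul_pow, ← Real.exp_nat_mul]
        congr 2
        field_simp
  have k1 := key m ha
  have k2 := key ((m : ℝ) - 1) (by linarith)
  have e2 : (N : ℝ) - (m - 1) = N - m + 1 := by ring
  rw [e2] at k2
  set E : ℝ := Real.exp 1 with hE
  have hE1 : (8 : ℝ) / 3 ≤ E := by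
    have := Real.exp_one_gt_d9
    rw [hE]
    norm_num at this ⊢
    linarith
  have hE0 : (0 : ℝ) < E := by linarith
  have x1 : Real.exp (-(m : ℝ)) = (E⁻¹) ^ m := by
    rw [hE, ← Real.exp_neg, ← Real.exp_nat_mul]
    congr 1
    ring
  have x2 : Real.exp (-((m : ℝ) - 1)) = E * (E⁻¹) ^ m := by
    have : -((m : ℝ) - 1) = 1 + -(m : ℝ) := by ring
    rw [this, Real.exp_add, x1]
  rw [x1] at k1
  rw [x2] at k2
  have hNN : (0 : ℝ) < (N : ℝ) ^ N := pow_pos hN0 N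
  have hEm : (0 : ℝ) < (E⁻¹) ^ m := pow_pos (inv_pos.mpr hE0) m
  -- Bernoulli
  have hy : (0 : ℝ) ≤ (E - 1) / N := div_nonneg (by linarith) hN0.le
  have hB : 1 + (m : ℝ) * ((E - 1) / N) ≤ (1 + (E - 1) / N) ^ m :=
    one_add_mul_le_pow (by linarith) m
  have hq : 2 * E⁻¹ * (1 + (E - 1) / N) ≤ 1 := by
    have h5 : (E - 1) / N ≤ (E - 1) / 5 := div_le_div_of_nonneg_left (by linarith) (by norm_num) hN5
    have h6 : 2 * (1 + (E - 1) / 5) ≤ E := by linarith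
    have h7 : 2 * (1 + (E - 1) / N) ≤ E := by linarith
    calc 2 * E⁻¹ * (1 + (E - 1) / N) = E⁻¹ * (2 * (1 + (E - 1) / N)) := by ring
      _ ≤ E⁻¹ * E := mul_le_mul_of_nonneg_left h7 (inv_pos.mpr hE0).le
      _ = 1 := inv_mul_cancel₀ hE0.ne'
  have hfin : (2 : ℝ) ^ m * (E⁻¹) ^ m * ((N : ℝ) - m + m * E) ≤ N := by
    have h8 : (N : ℝ) - m + m * E = N * (1 + (m : ℝ) * ((E - 1) / N)) := by
      field_simp
      ring
    rw [h8]
    calc (2 : ℝ) ^ m * (E⁻¹) ^ m * (N * (1 + (m : ℝ) * ((E - 1) / N)))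
        ≤ (2 : ℝ) ^ m * (E⁻¹) ^ m * (N * (1 + (E - 1) / N) ^ m) := by
          apply mul_le_mul_of_nonneg_left _ (by positivity)
          exact mul_le_mul_of_nonneg_left hB hN0.le
      _ = N * (2 * E⁻¹ * (1 + (E - 1) / N)) ^ m := by
          rw [mul_pow, mul_pow]
          ring
      _ ≤ N * 1 := by
          apply mul_le_mul_of_nonneg_left _ hN0.le
          exact pow_le_one₀ (by positivity) hq
      _ = N := mul_one _
  calc (2 : ℝ) ^ m * (((N : ℝ) - m) ^ (N + 1) + m * ((N : ℝ) - m + 1) ^ N)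
      = (2 : ℝ) ^ m * (((N : ℝ) - m) ^ N * ((N : ℝ) - m) + m * ((N : ℝ) - m + 1) ^ N) := by
        rw [pow_succ]
    _ ≤ (2 : ℝ) ^ m * (((N : ℝ) ^ N * (E⁻¹) ^ m) * ((N : ℝ) - m) +
          m * ((N : ℝ) ^ N * (E * (E⁻¹) ^ m))) := by
        apply mul_le_mul_of_nonneg_left _ (by positivity)
        exact add_le_add (mul_le_mul_of_nonneg_right k1 ha) (mul_le_mul_of_nonneg_left k2 hm0)
    _ = (N : ℝ) ^ N * ((2 : ℝ) ^ m * (E⁻¹) ^ m * ((N : ℝ) - m + m * E)) := by ring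
    _ ≤ (N : ℝ) ^ N * N := mul_le_mul_of_nonneg_left hfin hNN.le
    _ = (N : ℝ) ^ (N + 1) := (pow_succ _ _).symm

theorem t : S_NU := by
  intro N m hN hm
  rcases Nat.lt_or_ge N 5 with h | h
  · obtain rfl : N = 4 := by omega
    interval_cases m <;> norm_num
  · have h1 := real_bound N m h hm
    have h2 : ((N - m : ℕ) : ℝ) = (N : ℝ) - m := by
      rw [Nat.cast_sub hm]
    have h3 : ((2 ^ m * ((N - m) ^ (N + 1) + m * (N - m + 1) ^ N) : ℕ) : ℝ) ≤
        ((N ^ (N + 1) : ℕ) : ℝ) := by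
      push_cast [h2]
      exact h1
    exact_mod_cast h3

end Pool.Agent.Helper37.KH.NU
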